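import Pool.Agent.P.MP_593b7e_an.St.Below

set_option autoImplicit false

namespace Pool.Agent.Results.MP_593b7e_an.BelowThreshold

open Pool.Agent.P.MP_593b7e_an

/-- For `μ > μ₀` and couplings slightly below the threshold, the system has a nontrivial solution
that is not a ground state, with energy as close to the ground state level as we like. -/
theorem result (N : ℕ) (hN : 3 ≤ N) (p μ ν η : ℝ) (hp : 1 < p) (hp' : p < crit N - 1)
    (hμ : mu0 N p < μ) (hν : 0 < ν) (hη : 0 < η) :
    ∃ l : ℝ, 0 < l ∧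
      l < sInf {lam : ℝ | 0 < lam ∧ lam < √(μ * ν) ∧ HasGroundState N p μ ν lam} ∧
      ∀ lam : ℝ, l < lam →
        lam < sInf {lam : ℝ | 0 < lam ∧ lam < √(μ * ν) ∧ HasGroundState N p μ ν lam} →
        ∃ u v : H1 N, (u, v) ∈ nehari N p μ ν lam ∧
          (∀ φ ψ : H1 N, energyDeriv p μ ν lam u v φ ψ = 0) ∧
          level N p μ ν lam < energy p μ ν lam u v ∧
          energy p μ ν lam u v < level N p μ ν lam + η :=
  Hyp.below ⟨hN, hp, hp', (Hyp.mu0_pos ⟨hN, hp, hp', hν, hν⟩).trans hμ, hν⟩ hμ hη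

end Pool.Agent.Results.MP_593b7e_an.BelowThreshold
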