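import Pool.Agent.P.MP_593b7e_an.St.Main

set_option autoImplicit false

namespace Pool.Agent.Results.MP_593b7e_an.StrictThreshold

open Pool.Agent.P.MP_593b7e_an

/-- For `μ > μ₀` the threshold coupling, the infimum of the couplings in `(0, √(μν))` admitting a
ground state, is strictly larger than `√((μ - μ₀) ν)`. -/
theorem result (N : ℕ) (hN : 3 ≤ N) (p μ ν : ℝ) (hp : 1 < p) (hp' : p < crit N - 1)
    (hμ : mu0 N p < μ) (hν : 0 < ν) :
    √((μ - mu0 N p) * ν) <
      sInf {lam : ℝ | 0 < lam ∧ lam < √(μ * ν) ∧ HasGroundState N p μ ν lam} :=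
  Hyp.strict ⟨hN, hp, hp', (Hyp.mu0_pos ⟨hN, hp, hp', hν, hν⟩).trans hμ, hν⟩ hμ

end Pool.Agent.Results.MP_593b7e_an.StrictThreshold
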