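import Pool.Agent.P.MP_593b7e_an.Threshold

set_option autoImplicit false

namespace Pool.Agent.Results.MP_593b7e_an.ThresholdGroundState

open Pool.Agent.P.MP_593b7e_an

/-- For all admissible parameters the set of couplings `lam` in `(0, √(μν))` admitting a ground
state is nonempty, and at its infimum (the threshold coupling) a ground state exists. -/
theorem result (N : ℕ) (hN : 3 ≤ N) (p μ ν : ℝ) (hp : 1 < p) (hp' : p < crit N - 1)
    (hμ : 0 < μ) (hν : 0 < ν) :
    {lam : ℝ | 0 < lam ∧ lam < √(μ * ν) ∧ HasGroundState N p μ ν lam}.Nonempty ∧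
    HasGroundState N p μ ν
      (sInf {lam : ℝ | 0 < lam ∧ lam < √(μ * ν) ∧ HasGroundState N p μ ν lam}) :=
  Hyp.threshold ⟨hN, hp, hp', hμ, hν⟩

end Pool.Agent.Results.MP_593b7e_an.ThresholdGroundState
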